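import Pool.Agent.H34.N6V.Targets
import Pool.Agent.H34.N6.LibC
import Pool.Agent.H23.N6E.EBD2

/-!
# Two quadrics in `ℙ⁶`, several irreducible factors: adjusting the signs
-/

set_option autoImplicit false

open Polynomial NumberField IsDedekindDomain Pool.Agent.H32.QC Pool.Agent.H34.N6
open Pool.Agent.H13.DEV Pool.Agent.H34.N6V

namespace Pool.Agent.H7.N6V

section lib

variable {k : Type} [Field k] [NumberField k]

private theorem eval_int {v : FPl k} {P : k[X]} (hP : Int v P) {c : k} (hc : ‖ic v c‖ ≤ 1) :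
    ‖ic v (eval c P)‖ ≤ 1 := by
  rw [Polynomial.eval_eq_sum_range, map_sum]
  apply IsUltrametricDist.norm_sum_le_of_forall_le_of_nonneg zero_le_one
  intro i _
  rw [map_mul, map_pow, norm_mul, norm_pow]
  exact mul_le_one₀ (hP i) (by positivity) (pow_le_one₀ (norm_nonneg _) hc)

private theorem prod_one {ι : Type} [Fintype ι] {a : ι → ℝ} (h0 : ∀ i, 0 ≤ a i)
    (h1 : ∀ i, a i ≤ 1) (h : ∏ i, a i = 1) (j : ι) : a j = 1 := by
  classical
  by_contra hj
  have h2 : a j < 1 := lt_of_le_of_ne (h1 j) hj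
  have h3 : ∏ i ∈ Finset.univ.erase j, a i ≤ 1 :=
    Finset.prod_le_one (fun i _ => h0 i) (fun i _ => h1 i)
  have h4 := Finset.mul_prod_erase Finset.univ a (Finset.mem_univ j)
  rw [h] at h4
  have h5 : a j * ∏ i ∈ Finset.univ.erase j, a i < 1 :=
    mul_lt_one_of_nonneg_of_lt_one_left (h0 j) h2 h3
  linarith

private theorem exists_unif (v : FPl k) : ∃ π : k, π ≠ 0 ∧ ‖ic v π‖ < 1 ∧
    ∀ x : k, ‖ic v x‖ < 1 → ‖ic v x‖ ≤ ‖ic v π‖ := by
  obtain ⟨x, hx⟩ := v.valuation_exists_uniformizer k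
  have hval : ∀ y : k, Valued.v (ic v y) = v.valuation k y := fun y =>
    HeightOneSpectrum.valuedAdicCompletion_eq_valuation' v y
  refine ⟨x, ?_, ?_, ?_⟩
  · intro h
    rw [h, map_zero] at hx
    exact WithZero.exp_ne_zero hx.symm
  · rw [Valued.toNormedField.norm_lt_one_iff, hval, hx]
    exact WithZero.exp_lt_exp.2 (by norm_num)
  · intro y hy
    rw [Valued.toNormedField.norm_lt_one_iff, hval] at hy
    rw [Valued.toNormedField.norm_le_iff, hval, hval, hx]
    by_cases h0 : v.valuation k y = 0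
    · rw [h0]
      exact zero_le
    · obtain ⟨m, hm⟩ : ∃ m : ℤ, v.valuation k y = WithZero.exp m :=
        ⟨WithZero.log (v.valuation k y), (WithZero.exp_log h0).symm⟩
      rw [hm] at hy ⊢
      have h1 : (1 : WithZero (Multiplicative ℤ)) = WithZero.exp 0 := rfl
      rw [h1, WithZero.exp_lt_exp] at hy
      rw [WithZero.exp_le_exp]
      omega

private theorem sg_unit {L : Type} [Field L] [NumberField L] [Algebra k L] (D : k[X]) (e : L)
    (S : Finset (Pl k)) (G : Pl k → k[X]) : sg D e S G = 1 ∨ sg D e S G = -1 := by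
  have hmul : ∀ x y : ℤ, (x = 1 ∨ x = -1) → (y = 1 ∨ y = -1) → (x * y = 1 ∨ x * y = -1) := by
    rintro x y (h | h) (h' | h') <;> simp [h, h']
  have hhil : ∀ (F : Type) [Field F] (a b : F), hil a b = 1 ∨ hil a b = -1 := by
    intro F _ a b
    unfold hil
    split_ifs
    · exact Or.inl rfl
    · exact Or.inr rfl
  unfold sg
  apply finprod_induction (p := fun x : ℤ => x = 1 ∨ x = -1) (Or.inl rfl)
    (fun {x y} hx hy => hmul x y hx hy)
  intro w
  apply finprod_induction (p := fun x : ℤ => x = 1 ∨ x = -1) (Or.inl rfl)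
    (fun {x y} hx hy => hmul x y hx hy)
  intro _
  cases w with
  | inl w => exact hhil _ _ _
  | inr w => exact hhil _ _ _

private theorem sg_congr {L : Type} [Field L] [NumberField L] [Algebra k L] (D : k[X]) (e : L)
    (S : Finset (Pl k)) {G G' : Pl k → k[X]} (h : ∀ v ∈ S, G' v = G v) :
    sg D e S G' = sg D e S G := by
  unfold sg
  apply finprod_congr
  intro w
  apply finprod_congr
  intro hw
  rw [h _ hw]

end lib

theorem pf_ADJ (hGEN : T_GEN) (hPSI : T_PSI) (hNRM : T_NRM) (hINA : T_INA) (hINB : T_INB)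
    (hSGU : T_SGU) (hFIN : T_FIN) : T_ADJ := by
  classical
  intro k ι _ _ _ L _ _ _ P E D e R S N G ε hH hgen hNV j₀
  have : Nonempty ι := ⟨j₀⟩
  have hPm : (∏ j, P j).Monic := monic_prod_of_monic _ _ fun j _ => hH.fam.mon j
  have hN : 1 ≤ N := by
    obtain ⟨m, hm⟩ := hH.odd
    omega
  obtain ⟨c, hc⟩ : ∃ c : k, eval c (∏ j, P j) ≠ 0 := by
    by_contra hcon
    push Not at hcon
    apply hPm.ne_zero
    apply Polynomial.funext
    intro r
    rw [hcon r, eval_zero]
  -- the good places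
  let Gd : FPl k → Prop := fun v => Sum.inl v ∉ S ∧ ‖ic v c‖ ≤ 1 ∧
    ‖ic v (eval c (∏ j, P j))‖ = 1
  have hGdfin : {v : FPl k | ¬ Gd v}.Finite := by
    have h1 : {v : FPl k | (Sum.inl v : Pl k) ∈ S}.Finite :=
      S.finite_toSet.preimage (Sum.inl_injective.injOn)
    have h2 := int_fin c
    have h3 := (hFIN k k).2.2 _ hc
    apply ((h1.union h2).union h3).subset
    intro v hv
    by_contra hcon
    simp only [Set.mem_union, Set.mem_ofPred_eq, not_or, not_not] at hcon
    exact hv ⟨hcon.1.1, hcon.1.2, hcon.2⟩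
  have hfac : ∀ v, Gd v → ∀ j, ‖ic v (eval c (P j))‖ = 1 := by
    intro v hv j
    have hg := hH.good v hv.1
    have h1 := hv.2.2
    rw [Polynomial.eval_prod, map_prod, norm_prod] at h1
    exact prod_one (a := fun j => ‖ic v (eval c (P j))‖) (fun i => norm_nonneg _)
      (fun i => eval_int (hg.each i).intP hv.2.1) h1 j
  -- the signs
  obtain ⟨A, hA⟩ := hGEN {j : ι // j ≠ j₀} {v : FPl k // Gd v} (fun v j => psi D (e j.1) v.1)
    (by
      intro v j
      rw [hNRM k (L j.1) (P j.1) D (e j.1) v.1 (hH.fam.mon _) (hgen _)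
        ((hH.good v.1 v.2.1).each _)]
      split_ifs
      · exact Or.inl rfl
      · exact Or.inr rfl)
    (by
      intro s hs
      let s' : Finset ι := s.map (Function.Embedding.subtype _)
      have hs1 : s'.Nonempty := hs.map
      have hs2 : s' ≠ Finset.univ := by
        intro h
        have h1 : j₀ ∈ s' := by
          rw [h]
          exact Finset.mem_univ _
        rw [Finset.mem_map] at h1
        obtain ⟨j, -, hj⟩ := h1
        exact j.2 hj
      have h1 := hPSI k ι L P E D e hH.fam hgen hH.ndv s' (hNV s' hs1 hs2)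
      obtain ⟨v, hv1, hv2⟩ := (h1.sdiff hGdfin).nonempty
      have hv3 : Gd v := by
        by_contra hcon
        exact hv2 hcon
      refine ⟨⟨v, hv3⟩, ?_⟩
      rw [← hv1.2, Finset.prod_map]
      rfl)
    (fun j => sg D (e j.1) S G) (fun j => sg_unit D (e j.1) S G)
  let A' : Finset (FPl k) := A.map (Function.Embedding.subtype _)
  have hA' : ∀ v ∈ A', Gd v := by
    intro v hv
    rw [Finset.mem_map] at hv
    obtain ⟨u, -, hu⟩ := hv
    rw [← hu]
    exact u.2
  choose pi hpi0 hpi1 hpi2 using fun v : FPl k => exists_unif v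
  let Q : FPl k → k[X] := fun v => (X - C (pi v)⁻¹) * (X - C c) ^ (N - 1)
  have hex : ∀ v : FPl k, ∃ ε' : ℝ, Gd v → 0 < ε' ∧ NearOK R (Sum.inl v) N (Q v) ε' := by
    intro v
    by_cases hv : Gd v
    · obtain ⟨ε', h1, h2⟩ := hINA k ι P E D R S N G ε v c (pi v) hH hv.1 (hpi0 v) (hpi1 v)
        hv.2.1 hv.2.2
      exact ⟨ε', fun _ => ⟨h1, h2⟩⟩
    · exact ⟨0, fun h => absurd h hv⟩
  choose eN heN using hex
  let G' : Pl k → k[X] := fun v => match v with
    | .inl u => if u ∈ A' then Q u else G (.inl u)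
    | .inr φ => G (.inr φ)
  let ε' : Pl k → ℝ := fun v => match v with
    | .inl u => if u ∈ A' then eN u else ε (.inl u)
    | .inr φ => ε (.inr φ)
  have hG'1 : ∀ v ∈ S, G' v = G v ∧ ε' v = ε v := by
    intro v hv
    cases v with
    | inl u =>
      have hu : u ∉ A' := fun h => (hA' u h).1 hv
      exact ⟨if_neg hu, if_neg hu⟩
    | inr φ => exact ⟨rfl, rfl⟩
  have hG'2 : ∀ u ∈ A', G' (Sum.inl u) = Q u ∧ ε' (Sum.inl u) = eN u := by
    intro u hu
    exact ⟨if_pos hu, if_pos hu⟩
  let S' : Finset (Pl k) := S ∪ A'.map ⟨Sum.inl, Sum.inl_injective⟩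
  have hS' : ∀ v, v ∈ S' ↔ v ∈ S ∨ ∃ u ∈ A', v = Sum.inl u := by
    intro v
    rw [Finset.mem_union, Finset.mem_map]
    constructor
    · rintro (h | ⟨u, hu, h⟩)
      · exact Or.inl h
      · exact Or.inr ⟨u, hu, h.symm⟩
    · rintro (h | ⟨u, hu, h⟩)
      · exact Or.inl h
      · exact Or.inr ⟨u, hu, h.symm⟩
  have hsub : ∀ v, v ∉ S' → v ∉ S := fun v hv h => hv ((hS' v).2 (Or.inl h))
  refine ⟨S', G', ε', ?_, ?_⟩
  · refine ⟨hH.fam, hH.nsq, hH.ndv, fun v hv => hH.good v (hsub _ hv),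
      fun φ => (hS' _).2 (Or.inl (hH.real φ)), hH.odd, hH.le, ?_, hH.one, ?_, ?_, hH.spl, ?_⟩
    · intro v hv
      rcases (hS' v).1 hv with h | ⟨u, hu, rfl⟩
      · rw [(hG'1 v h).1, (hG'1 v h).2]
        exact hH.loc v h
      · rw [(hG'2 u hu).1, (hG'2 u hu).2]
        have hg := hA' u hu
        have hint := (hH.good u hg.1).all
        have hmon : (Q u).Monic := (monic_X_sub_C _).mul ((monic_X_sub_C _).pow _)
        refine ⟨(heN u hg).1, hmon, ?_, ?_, (heN u hg).2⟩
        · simp only [Q]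
          rw [(monic_X_sub_C _).natDegree_mul ((monic_X_sub_C _).pow _), natDegree_X_sub_C,
            (monic_X_sub_C _).natDegree_pow, natDegree_X_sub_C]
          omega
        · apply IsCoprime.mul_left
          · apply IsCoprime.symm
            apply coprime_X_sub
            intro h0
            have h1 : eval (ic u (pi u)⁻¹) ((∏ j, P j).map (ic u)) = 0 := by
              rw [Polynomial.eval_map_apply, h0, map_zero]
            have h2 := Pool.Agent.H23.N6E.root_int (hPm.map (ic u)) (by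
              intro i
              rw [coeff_map]
              exact hint.intP i) h1
            rw [map_inv₀, norm_inv] at h2
            have h3 : 0 < ‖ic u (pi u)‖ := norm_pos_iff.2 ((map_ne_zero (ic u)).2 (hpi0 u))
            have h4 := (inv_le_one₀ h3).1 h2
            exact absurd (hpi1 u) (not_lt.2 h4)
          · exact (coprime_X_sub hc).symm.pow_left
    · intro K _ _ _ w θ hw
      exact hH.pos K w θ (hsub _ hw)
    · intro K _ _ _ w θ hw
      exact hH.neg K w θ (hsub _ hw)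
    · intro K _ _ _ w θ hw
      exact hH.far K w θ (hsub _ hw)
  · intro j hj
    obtain ⟨S'', hS'', hsg⟩ := hSGU k (L j) D (e j) S A' G' (fun v hv => (hA' v hv).1)
    have hSS : S'' = S' := by
      ext v
      rw [hS'', hS']
    rw [hSS] at hsg
    rw [hsg, sg_congr D (e j) S (fun v hv => (hG'1 v hv).1)]
    have h1 : ∏ v ∈ A', ∏ᶠ (w : Pl (L j)) (_ : bel (k := k) w = Sum.inl v),
        hs w (aeval (e j) (G' (Sum.inl v))) (aeval (e j) D) = ∏ v ∈ A', psi D (e j) v := by
      apply Finset.prod_congr rfl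
      intro v hv
      rw [(hG'2 v hv).1]
      have hg := hA' v hv
      exact hINB k (L j) (P j) D (e j) v c (pi v) (N - 1) (hH.fam.mon j) (hgen j)
        ((hH.good v hg.1).each j) (hpi0 v) (hpi1 v) (hpi2 v) hg.2.1 (hfac v hg j)
    rw [h1, Finset.prod_map]
    have h2 := hA ⟨j, hj⟩
    have h3 : ∏ v ∈ A, psi D (e j) ((Function.Embedding.subtype _) v) = sg D (e j) S G := h2
    rw [h3]
    rcases sg_unit D (e j) S G with h | h <;> rw [h] <;> norm_num

end Pool.Agent.H7.N6V
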